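import Pool.Agent.Lib.MP_ef3f0f_gt.Z.Spec
import Pool.Agent.Lib.MP_ef3f0f_gt.Q.Defs

set_option autoImplicit false

/-!
# MP_ef3f0f_gt, final assembly: passage between `PSL₂(ℝ)` and `SL₂(ℝ)`

Modules `F/X.lean`: `theorem tX : S_X`, namespace `Pool.Agent.MPEF`.
-/

namespace Pool.Agent.MPEF

open Topology
open scoped Pointwise

/-- The projection `SL₂(ℝ) × H → PSL₂(ℝ) × H`. -/
def prj (H : Type) [Group H] : SL2 × H →* PSL2 × H :=
  MonoidHom.prodMap (QuotientGroup.mk' (Subgroup.center SL2)) (MonoidHom.id H)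

/-- Lifting the lattice. Proof. `π = prj H` is a continuous open surjective homomorphism with kernel `{±1} × {1}` (the center of `SL₂(ℝ)`). Discrete: there is an open
`U ∋ 1` with `U ∩ Γ = {1}`, so `π⁻¹ U ∩ Γ' ⊆ {±1}`; shrink `π⁻¹ U` to exclude `(-1, 1)`. Cocompact: the map `(SL₂ × H) ⧸ Γ' → (PSL₂ × H) ⧸ Γ` induced by `π` is a
continuous open bijection, so a homeomorphism. Dense: `fst '' Γ'` is the preimage of the dense set
`fst '' Γ` under the open map `SL₂ → PSL₂`. -/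
def S_pre : Prop :=
  ∀ (H : Type) [Group H] [TopologicalSpace H] [IsTopologicalGroup H] [LocallyCompactSpace H]
    [T2Space H] [SecondCountableTopology H] (Γ : Subgroup (PSL2 × H)), DiscreteTopology Γ →
    CompactSpace ((PSL2 × H) ⧸ Γ) → Dense (Prod.fst '' (Γ : Set (PSL2 × H))) →
    DiscreteTopology (Γ.comap (prj H)) ∧ CompactSpace ((SL2 × H) ⧸ Γ.comap (prj H)) ∧
      Dense (Prod.fst '' ((Γ.comap (prj H) : Subgroup (SL2 × H)) : Set (SL2 × H)))

/-- Descending the surface group. Proof. `f' = prj H ∘ f`. If `(f' x).1 = (f' y).1` then `g = x⁻¹ y` satisfies: `(f g).1` is in the center of `SL₂(ℝ)`, i.e. `±1`, so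
`g = 1`. -/
def S_post : Prop :=
  ∀ (H : Type) [Group H] (Γ : Subgroup (PSL2 × H)) (h : ℕ)
    (f : SurfaceGroup h →* (Γ.comap (prj H) : Subgroup (SL2 × H))),
    (∀ g, ((f g : SL2 × H)).1 ∈ arcSL.N → g = 1) →
    ∃ f' : SurfaceGroup h →* PSL2 × H, (∀ x, f' x ∈ Γ) ∧ Function.Injective fun x => (f' x).1

end Pool.Agent.MPEF
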