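import Pool.Agent.Lib.MP_ef3f0f_gt.F.Spec

set_option autoImplicit false

/-!
# MP_ef3f0f_gt, final assembly: descending the surface group
-/

namespace Pool.Agent.MPEF

open Topology
open scoped Pointwise

private theorem post_center (g : SL2) (hg : g ∈ Subgroup.center SL2) : g.1 = 1 ∨ g.1 = -1 := by
  obtain ⟨r, hr, hrg⟩ := Matrix.SpecialLinearGroup.mem_center_iff.1 hg
  have h1 : r = 1 ∨ r = -1 := by
    rw [Fintype.card_fin] at hr
    have h2 : (r - 1) * (r + 1) = 0 := by linear_combination hr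
    rcases mul_eq_zero.1 h2 with h | h
    · left; linarith
    · right; linarith
  rcases h1 with rfl | rfl
  · left
    have : (g : Matrix (Fin 2) (Fin 2) ℝ) = 1 := by
      rw [← hrg]
      simp
    exact this
  · right
    have : (g : Matrix (Fin 2) (Fin 2) ℝ) = -1 := by
      rw [← hrg, map_neg, map_one]
    exact this

theorem tpost : S_post := by
  intro H _ Γ h f hf
  refine ⟨(prj H).comp ((Γ.comap (prj H)).subtype.comp f), fun x => (f x).2, ?_⟩
  intro x y hxy
  have h1 : (prj H ((f (x⁻¹ * y) : (Γ.comap (prj H) : Subgroup (SL2 × H))) : SL2 × H)).1 = 1 := by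
    have h2 : (prj H ((f x : (Γ.comap (prj H) : Subgroup (SL2 × H))) : SL2 × H)).1 =
        (prj H ((f y : (Γ.comap (prj H) : Subgroup (SL2 × H))) : SL2 × H)).1 := hxy
    rw [map_mul, map_inv, Subgroup.coe_mul, Subgroup.coe_inv, map_mul, map_inv, Prod.fst_mul,
      Prod.fst_inv, h2, inv_mul_cancel]
  have h3 : ((f (x⁻¹ * y) : (Γ.comap (prj H) : Subgroup (SL2 × H))) : SL2 × H).1 ∈
      Subgroup.center SL2 := (QuotientGroup.eq_one_iff _).1 h1
  have h4 : x⁻¹ * y = 1 := by
    apply hf
    exact post_center _ h3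
  exact inv_mul_eq_one.1 h4

end Pool.Agent.MPEF
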