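import Pool.Agent.Lib.MP_ef3f0f_gt.F.Spec

set_option autoImplicit false

/-!
# MP_ef3f0f_gt, final assembly: lifting a lattice from `PSL₂(ℝ) × H` to `SL₂(ℝ) × H`
-/

namespace Pool.Agent.MPEF

open Topology
open scoped Pointwise

/-- The quotient by the preimage of a cocompact subgroup is compact. -/
private theorem pre_compact {G G' : Type} [Group G] [TopologicalSpace G] [Group G']
    [TopologicalSpace G'] [IsTopologicalGroup G'] (π : G →* G') (hc : Continuous π)
    (ho : IsOpenMap π) (hs : Function.Surjective π) (Γ : Subgroup G')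
    (hΓ : CompactSpace (G' ⧸ Γ)) : CompactSpace (G ⧸ Γ.comap π) := by
  have hrel : ∀ a b : G, (QuotientGroup.leftRel (Γ.comap π)) a b →
      (QuotientGroup.leftRel Γ) (π a) (π b) := by
    intro a b h
    rw [QuotientGroup.leftRel_apply] at h ⊢
    rw [← map_inv, ← map_mul]
    exact h
  let φ : G ⧸ Γ.comap π → G' ⧸ Γ := Quotient.map' π hrel
  have hφc : Continuous φ := hc.quotient_map' hrel
  have hφmk : ∀ a : G, φ (a : G ⧸ Γ.comap π) = (π a : G' ⧸ Γ) := fun a => rfl
  have hφi : Function.Injective φ := by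
    intro x y
    obtain ⟨a, rfl⟩ := QuotientGroup.mk_surjective x
    obtain ⟨b, rfl⟩ := QuotientGroup.mk_surjective y
    intro h
    rw [hφmk, hφmk, QuotientGroup.eq, ← map_inv, ← map_mul] at h
    rw [QuotientGroup.eq]
    exact h
  have hφs : Function.Surjective φ := by
    intro y
    obtain ⟨b, rfl⟩ := QuotientGroup.mk_surjective y
    obtain ⟨a, rfl⟩ := hs b
    exact ⟨a, rfl⟩
  have hφo : IsOpenMap φ := by
    intro W hW
    have h1 : IsOpen ((fun a : G => (a : G ⧸ Γ.comap π)) ⁻¹' W) :=
      hW.preimage QuotientGroup.continuous_mk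
    have h2 := QuotientGroup.isOpenMap_coe (N := Γ) _ (ho _ h1)
    convert h2 using 1
    ext y
    constructor
    · rintro ⟨x, hx, rfl⟩
      obtain ⟨a, rfl⟩ := QuotientGroup.mk_surjective x
      exact ⟨π a, ⟨a, hx, rfl⟩, rfl⟩
    · rintro ⟨_, ⟨a, ha, rfl⟩, rfl⟩
      exact ⟨a, ha, rfl⟩
  let e : (G ⧸ Γ.comap π) ≃ₜ (G' ⧸ Γ) :=
    (Equiv.ofBijective φ ⟨hφi, hφs⟩).toHomeomorphOfContinuousOpen hφc hφo
  exact e.symm.compactSpace

private theorem pre_center (g : SL2) (hg : g ∈ Subgroup.center SL2) : g.1 = 1 ∨ g.1 = -1 := by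
  obtain ⟨r, hr, hrg⟩ := Matrix.SpecialLinearGroup.mem_center_iff.1 hg
  have h1 : r = 1 ∨ r = -1 := by
    rw [Fintype.card_fin] at hr
    have h2 : (r - 1) * (r + 1) = 0 := by linear_combination hr
    rcases mul_eq_zero.1 h2 with h | h
    · left; linarith
    · right; linarith
  rcases h1 with rfl | rfl
  · left
    have : (g : Matrix (Fin 2) (Fin 2) ℝ) = 1 := by
      rw [← hrg]
      simp
    exact this
  · right
    have : (g : Matrix (Fin 2) (Fin 2) ℝ) = -1 := by
      rw [← hrg, map_neg, map_one]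
    exact this

theorem tpre : S_pre := by
  intro H _ _ _ _ _ _ Γ hΓd hΓc hΓ
  set q : SL2 →* PSL2 := QuotientGroup.mk' (Subgroup.center SL2) with hq
  have hqc : Continuous q := QuotientGroup.continuous_mk
  have hqo : IsOpenMap q := QuotientGroup.isOpenMap_coe
  have hqs : Function.Surjective q := QuotientGroup.mk'_surjective _
  have hqk : ∀ g, q g = 1 → g.1 = 1 ∨ g.1 = -1 := by
    intro g hg
    exact pre_center g ((QuotientGroup.eq_one_iff g).1 hg)
  set π : SL2 × H →* PSL2 × H := prj H with hπ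
  have hπc : Continuous π := hqc.prodMap continuous_id
  have hπo : IsOpenMap π := hqo.prodMap IsOpenMap.id
  have hπs : Function.Surjective π := hqs.prodMap Function.surjective_id
  refine ⟨?_, pre_compact π hπc hπo hπs Γ hΓc, ?_⟩
  · have h1 : IsOpen ({1} : Set Γ) := isOpen_discrete _
    obtain ⟨U, hU, hU1⟩ := isOpen_induced_iff.1 h1
    refine discreteTopology_of_isOpen_singleton_one (isOpen_induced_iff.2
      ⟨π ⁻¹' U ∩ {x | x.1 ≠ -1}, ?_, ?_⟩)
    · exact (hU.preimage hπc).inter (isOpen_ne.preimage continuous_fst)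
    · ext ⟨x, hx⟩
      constructor
      · rintro ⟨hxU, hx1⟩
        have h2 : (⟨π x, hx⟩ : Γ) ∈ ({1} : Set Γ) := by
          rw [← hU1]
          exact hxU
        have h3 : π x = 1 := congrArg Subtype.val h2
        have h4 : q x.1 = 1 := congrArg Prod.fst h3
        have h5 : x.2 = 1 := congrArg Prod.snd h3
        have h6 : x.1 = 1 := by
          rcases hqk _ h4 with h6 | h6
          · exact Subtype.ext h6
          · exact absurd (Subtype.ext h6) hx1
        apply Subtype.ext
        exact Prod.ext h6 h5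
      · intro h
        have h2 : x = 1 := congrArg Subtype.val h
        subst h2
        refine ⟨?_, ?_⟩
        · have h3 : (1 : Γ) ∈ ((↑) : Γ → PSL2 × H) ⁻¹' U := by
            rw [hU1]
            rfl
          show π 1 ∈ U
          rw [map_one]
          exact h3
        · show (1 : SL2) ≠ -1
          intro h3
          have h4 := congrArg (fun g : SL2 => g.1 0 0) h3
          simp at h4
          norm_num at h4
  · have h1 : Prod.fst '' ((Γ.comap π : Subgroup (SL2 × H)) : Set (SL2 × H)) =
        q ⁻¹' (Prod.fst '' (Γ : Set (PSL2 × H))) := by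
      ext x
      constructor
      · rintro ⟨y, hy, rfl⟩
        exact ⟨π y, hy, rfl⟩
      · rintro ⟨y, hy, hyx⟩
        refine ⟨(x, y.2), ?_, rfl⟩
        have : π (x, y.2) = y := Prod.ext hyx.symm rfl
        show π (x, y.2) ∈ Γ
        rw [this]
        exact hy
    rw [h1]
    exact hΓ.preimage hqo

end Pool.Agent.MPEF
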